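import Pool.Agent.N869.GK.StmH
import Pool.Agent.N195.GK.LAA

/-!
# Project GK, piece LAAH: assembly of the linear algebra, prescribed values (helper588, after helper195)
-/

set_option autoImplicit false
set_option linter.unusedVariables false
set_option linter.unusedSectionVars false

open scoped Classical

namespace Pool.Agent.N588.GK

open Finset
open Pool.Agent.N869.QT.L (prs ext Lc Fam)
open Pool.Agent.N869.GK
open Pool.Agent.N869.GK.H
open Pool.Agent.N195.GK (ext_recip hyp_mono hyp1_of hyp1_sub count_eq mc_sigma prod_sigma')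

theorem t_LAAH : S_LAAH := by
  intro hMOM hINV hPAR hALTR hAUTO hTOR hKC hSUB r D hOk e hRk I Q _ _ E hE ρ hρ ε hε
  obtain ⟨m₀, δ, hδ, hM⟩ := hINV I e ρ hρ ε hε
  choose KK hKK using fun m : I → ℕ => hMOM r D hOk (Σ a, Fin (m a)) I Q E (fun x => x.1) hE δ hδ
  obtain ⟨P, hP⟩ : ∃ P : Finset (I → ℕ), P = Fintype.piFinset fun _ : I => range (m₀ + 1) :=
    ⟨_, rfl⟩
  refine ⟨P.sup KK + 1, ?_⟩
  intro U J _ _ _ W g lU lJ A B hyp
  have hpar : ∀ (α : prs J → ZMod 2) (a : I), ∃ k : ℕ, k % 2 = e % 2 ∧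
      {x | Sol D (Sum.elim lU lJ) (Nm D lU lJ A B α) (TT W E g a) x}.ncard = 2 ^ (k + 2) := by
    intro α a
    have h1 := hyp1_of (Nat.le_add_left 1 (P.sup KK)) hE hyp α a
    obtain ⟨k, hk, hG⟩ := hPAR hALTR hAUTO hTOR hKC r D hOk e hRk {i // i ∈ TT W E g a} _ _
      (hyp1_sub h1)
    refine ⟨k, hk, ?_⟩
    have h2 := (hSUB r D (U ⊕ J) {i // i ∈ TT W E g a} Subtype.val Subtype.val_injective
      (Sum.elim lU lJ) (Nm D lU lJ A B α) (TT W E g a) univ (fun i => by
        constructor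
        · intro hi
          exact ⟨⟨i, hi⟩, Finset.mem_univ _, rfl⟩
        · rintro ⟨j, _, rfl⟩
          exact j.2)).1
    rw [h2]
    exact hG
  choose kk hkk1 hkk2 using hpar
  have hcardΩ : (Fintype.card (prs J → ZMod 2) : ℝ) = 2 ^ (prs J).card := by
    rw [Fintype.card_fun, ZMod.card, Fintype.card_coe]
    push_cast
    rfl
  have key := hM (prs J → ZMod 2) kk hkk1 ?_
  · rw [hcardΩ] at key
    have h1 : (univ.filter fun α : prs J → ZMod 2 =>
          ∀ a, Gk D (Sum.elim lU lJ) (Nm D lU lJ A B α) (ρ a) (TT W E g a)) =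
        univ.filter fun α : prs J → ZMod 2 => ∀ a, kk α a = ρ a := by
      apply Finset.filter_congr
      intro α _
      apply forall_congr'
      intro a
      unfold Gk
      rw [hkk2]
      constructor
      · intro h
        have h2 := Nat.pow_right_injective le_rfl h
        omega
      · intro h
        rw [h]
    rw [h1]
    exact key
  · intro m hm
    have hmP : m ∈ P := by
      rw [hP, Fintype.mem_piFinset]
      intro i
      rw [Finset.mem_range]
      have := hm i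
      omega
    have hyp2 : HypG D (KK m) W E g lU lJ A B :=
      hyp_mono ((Finset.le_sup (f := KK) hmP).trans (by omega)) hyp
    have h1 := hKK m U J W g lU lJ A B hyp2
    have h2 := count_eq (Ω := prs J → ZMod 2) (ι := Σ a, Fin (m a))
      (X := (Fin 2 → Gr r) × (U ⊕ J → V))
      (fun α x z => Sol D (Sum.elim lU lJ) (Nm D lU lJ A B α) (TT W E g x.1) z)
    have h3 : ∀ α : prs J → ZMod 2, ∏ x : (Σ a, Fin (m a)),
        {z | Sol D (Sum.elim lU lJ) (Nm D lU lJ A B α) (TT W E g x.1) z}.ncard =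
        (∏ a, 4 ^ m a) * ∏ a, 2 ^ (m a * kk α a) := by
      intro α
      simp_rw [hkk2]
      rw [prod_sigma' m (fun a => 2 ^ (kk α a + 2)), ← Finset.prod_mul_distrib]
      apply Finset.prod_congr rfl
      intro a _
      rw [pow_add, mul_pow, ← pow_mul, mul_comm (kk α a), mul_comm]
      norm_num
    have h4 := h2.trans ((Finset.sum_congr rfl fun α _ => h3 α).trans
      (Finset.mul_sum univ (fun α => ∏ a, 2 ^ (m a * kk α a)) (∏ a, 4 ^ m a)).symm)
    rw [hcardΩ]
    have h5 : |((∏ a, (4 : ℝ) ^ m a) * ∑ α, ∏ a, (2 : ℝ) ^ (m a * kk α a)) / 2 ^ (prs J).card -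
        (∏ a, (4 : ℝ) ^ m a) * ∏ a, mom (m a)| ≤ δ := by
      have h6 : (((∏ a, 4 ^ m a) * ∑ α, ∏ a, 2 ^ (m a * kk α a) : ℕ) : ℝ) =
          (∏ a, (4 : ℝ) ^ m a) * ∑ α, ∏ a, (2 : ℝ) ^ (m a * kk α a) := by
        push_cast
        rfl
      rw [← h6, ← h4, ← Finset.prod_mul_distrib]
      simp_rw [mc_sigma] at h1
      exact h1
    have h7 : (1 : ℝ) ≤ ∏ a, (4 : ℝ) ^ m a := by
      calc (1 : ℝ) = ∏ a : I, (1 : ℝ) := by simp
        _ ≤ _ := Finset.prod_le_prod (fun _ _ => zero_le_one)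
          (fun a _ => one_le_pow₀ (by norm_num))
    have h8 : ((∏ a, (4 : ℝ) ^ m a) * ∑ α, ∏ a, (2 : ℝ) ^ (m a * kk α a)) / 2 ^ (prs J).card -
        (∏ a, (4 : ℝ) ^ m a) * ∏ a, mom (m a) = (∏ a, (4 : ℝ) ^ m a) *
        ((∑ α, ∏ a, (2 : ℝ) ^ (m a * kk α a)) / 2 ^ (prs J).card - ∏ a, mom (m a)) := by
      ring
    rw [h8, abs_mul, abs_of_nonneg (by linarith)] at h5
    exact (le_mul_of_one_le_left (abs_nonneg _) h7).trans h5

end Pool.Agent.N588.GK
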